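import Pool.Agent.Y154.QB2.LinesA

/-! The job QB-LINES. -/

set_option autoImplicit false


namespace Pool.Agent.Y154.QB2

open Module Pool.Agent.Y920.QB

theorem t_LINES : S_LINES := by
  classical
  intro hAMP hSUM _ hDICH hSPAN V K _ _ _ _ _ _ U β t T hL hStd
  obtain ⟨ht, hAT, hT⟩ := hStd
  have hUV : finrank (ZMod 2) U ≤ finrank (ZMod 2) V := Submodule.finrank_le U
  obtain ⟨r, hr⟩ : ∃ r, r = finrank (ZMod 2) K := ⟨_, rfl⟩
  have hStd' : Std β t T := ⟨ht, hAT, hT⟩
  rcases Nat.lt_or_ge r 2 with hr2 | hr2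
  · rcases Nat.eq_zero_or_pos r with hr0 | hr0
    · -- r = 0
      rw [hr] at hr0
      have hK : Subsingleton K := Module.finrank_zero_iff.1 hr0
      have hU : finrank (ZMod 2) U = 0 := by
        have : Subsingleton U := by
          refine ⟨fun a b => ?_⟩
          rw [hL.inj a (fun x => Subsingleton.elim _ _), hL.inj b (fun x => Subsingleton.elim _ _)]
        exact Module.finrank_zero_of_subsingleton
      have hE : IsEmpty (Fin (finrank (ZMod 2) K)) := by rw [hr0]; infer_instance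
      refine ⟨fun i => (hE.false i).elim, ?_, ?_⟩
      · exact linearIndependent_empty_type
      · rw [hU]
        omega
    · -- r = 1
      have hr1 : finrank (ZMod 2) K = 1 := by omega
      obtain ⟨θ, hθ⟩ := Module.finrank_pos_iff_exists_ne_zero.1 (show 0 < finrank (ZMod 2) K by omega)
      have hspan : Submodule.span (ZMod 2) {θ} = ⊤ :=
        (finrank_eq_one_iff_of_nonzero θ hθ).1 hr1
      refine ⟨fun _ => θ, ?_, ?_⟩
      · have hsub : Subsingleton (Fin (finrank (ZMod 2) K)) := by rw [hr1]; infer_instance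
        have hU : Unique (Fin (finrank (ZMod 2) K)) := by rw [hr1]; infer_instance
        exact LinearIndependent.of_subsingleton default hθ
      · rw [Finset.sum_congr rfl (fun i _ => by rw [hspan, ee_top]), Finset.sum_const,
          Finset.card_univ, Fintype.card_fin, hr1]
        simp only [smul_eq_mul]
        omega
  -- r ≥ 2
  obtain ⟨hspan, hks⟩ := hSPAN V K U β t T hL hStd'
  obtain ⟨ks, hks0, hks1⟩ := hks (by omega)
  obtain ⟨𝒞, h𝒞⟩ : ∃ 𝒞 : Set (Module.Dual (ZMod 2) K),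
      𝒞 = {κ | κ ≠ 0 ∧ Coat β t (LinearMap.ker κ)} := ⟨_, rfl⟩
  rw [← h𝒞] at hspan
  have hC : ∀ κ ∈ 𝒞, κ ≠ 0 ∧ Coat β t (LinearMap.ker κ) := fun κ hκ => by
    rw [h𝒞] at hκ; exact hκ
  obtain ⟨hA1, hA2⟩ := hAMP V K U β t
  -- SS of a coat
  have hSS : ∀ κ ∈ 𝒞, SS β t (LinearMap.ker κ) = LinearMap.ker κ := fun κ hκ =>
    le_antisymm (hA2 _).2.1 (le_sSup ⟨le_rfl, (hC κ hκ).2.1⟩)
  have hL3 : ∀ κ ∈ 𝒞, ¬ SS β t (LinearMap.ker (ks + κ)) ≤ LinearMap.ker κ := by
    intro κ hκ h
    have := (hDICH V K U β t T hL hStd' κ (hC κ hκ).1 (hC κ hκ).2 ks).1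
    apply this
    refine ⟨?_, h⟩
    rw [hks1]
    exact bot_le
  -- the basic inequality
  obtain ⟨c, hc⟩ : ∃ c, finrank (ZMod 2) V = finrank (ZMod 2) U + c :=
    Nat.exists_eq_add_of_le hUV
  have hTc : c + 3 * (t * r) + r + 2 ≤ T := by
    have : 3 * t * r = 3 * (t * r) := by ring
    rw [← hr, this] at hT
    omega
  have heks : ee β (LinearMap.ker ks) ≤ t * r := by
    have h1 := (hA2 (LinearMap.ker ks)).2.2
    rw [hks1, ee_bot β hL, zero_add, ← hr] at h1
    exact h1
  have hsum : ∀ l : Module.Dual (ZMod 2) K, finrank (ZMod 2) U ≤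
      finrank (ZMod 2) ↥(UE β (LinearMap.ker l) ⊔ UE β (LinearMap.ker (l + ks))) +
        (c + t * r) + 1 := by
    intro l
    refine hSUM V K U β T (c + t * r) hL hAT (by omega) l ks ?_
    omega
  have hSSe : ∀ E : Submodule (ZMod 2) K, finrank (ZMod 2) (UE β E) ≤
      finrank (ZMod 2) (UE β (SS β t E)) + t * r := by
    intro E
    have h1 := (hA2 E).2.2
    rw [← hr] at h1
    exact h1
  -- the claim
  have hclaim : ∀ κ ∈ 𝒞, ∀ κ' ∈ 𝒞, κ' ≠ κ →
      SS β t (LinearMap.ker (ks + κ)) ≤ LinearMap.ker κ' := by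
    intro κ hκ κ' hκ' hne
    by_contra hcon
    have h1 := (hDICH V K U β t T hL hStd' κ' (hC κ' hκ').1 (hC κ' hκ').2 (ks + κ)).2 hcon
    have h2 : ¬ SS β t (LinearMap.ker κ') ≤ LinearMap.ker κ := by
      rw [hSS κ' hκ']
      intro h
      exact hne (dual_eq_of_ker (hC κ hκ).1 h)
    have h3 := (hDICH V K U β t T hL hStd' κ (hC κ hκ).1 (hC κ hκ).2 κ').2 h2
    rw [hSS κ' hκ'] at h3
    obtain ⟨l, hl⟩ : ∃ l, l = ks + κ + κ' := ⟨_, rfl⟩
    rw [← hl] at h1
    have hm : l + ks = κ' + κ := by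
      rw [hl]
      have := dual_add_self ks
      calc ks + κ + κ' + ks = (ks + ks) + (κ' + κ) := by abel
        _ = κ' + κ := by rw [this, zero_add]
    obtain ⟨J, hJ⟩ : ∃ J, J = SS β t (LinearMap.ker l) ⊔ SS β t (LinearMap.ker (κ' + κ)) :=
      ⟨_, rfl⟩
    have hJle : J ≤ LinearMap.ker κ' := by
      rw [hJ]
      exact sup_le (h1.trans inf_le_left) (h3.trans inf_le_right)
    have hJlt : J < ⊤ := by
      rw [lt_top_iff_ne_top]
      intro h
      rw [h, top_le_iff] at hJle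
      exact (hC κ' hκ').1 (LinearMap.ker_eq_top.1 hJle)
    have h4 := hAT J hJlt
    rw [ee_top] at h4
    have h5 := hsum l
    rw [hm] at h5
    have h6 := sup_bound (UE_mono β (hA2 (LinearMap.ker l)).2.1)
      (UE_mono β (hA2 (LinearMap.ker (κ' + κ))).2.1) (t * r) (hSSe _) (hSSe _)
    have h7 : finrank (ZMod 2) ↥(UE β (SS β t (LinearMap.ker l)) ⊔
        UE β (SS β t (LinearMap.ker (κ' + κ)))) ≤ ee β J := by
      apply Submodule.finrank_mono
      rw [hJ]
      exact sup_le (UE_mono β le_sup_left) (UE_mono β le_sup_right)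
    omega
  -- the dual system
  have hex : ∀ κ : 𝒞, ∃ x : K, x ∈ SS β t (LinearMap.ker (ks + (κ : Module.Dual (ZMod 2) K))) ∧
      (κ : Module.Dual (ZMod 2) K) x = 1 := by
    intro κ
    have h1 := hL3 κ κ.2
    rw [SetLike.not_le_iff_exists] at h1
    obtain ⟨x, hx1, hx2⟩ := h1
    exact ⟨x, hx1, (zmod2_cases _).resolve_left (fun h => hx2 (LinearMap.mem_ker.2 h))⟩
  choose x hx1 hx2 using hex
  have hx3 : ∀ κ κ' : 𝒞, κ' ≠ κ → (κ' : Module.Dual (ZMod 2) K) (x κ) = 0 := by
    intro κ κ' hne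
    exact LinearMap.mem_ker.1 (hclaim κ κ.2 κ' κ'.2 (fun h => hne (Subtype.ext h)) (hx1 κ))
  have hfin : Finite 𝒞 := by
    have : Finite (Module.Dual (ZMod 2) K) :=
      Finite.of_injective (fun f : Module.Dual (ZMod 2) K => (f : K → ZMod 2))
        DFunLike.coe_injective
    exact Subtype.finite
  have : Fintype 𝒞 := Fintype.ofFinite 𝒞
  have hxi : LinearIndependent (ZMod 2) x := by
    rw [Fintype.linearIndependent_iff]
    intro g hg κ
    have h1 := congrArg (κ : Module.Dual (ZMod 2) K) hg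
    rw [map_sum, map_zero, Finset.sum_eq_single κ] at h1
    · rw [map_smul, hx2, smul_eq_mul, mul_one] at h1
      exact h1
    · intro κ' _ hne
      rw [map_smul, hx3 κ' κ (fun h => hne h.symm), smul_zero]
    · intro h
      exact absurd (Finset.mem_univ _) h
  have hcard : Fintype.card 𝒞 = r := by
    apply le_antisymm
    · rw [hr]
      exact hxi.fintype_card_le_finrank
    · have h1 : finrank (ZMod 2) (Module.Dual (ZMod 2) K) = r := by
        rw [hr]; exact Subspace.dual_finrank_eq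
      rw [← h1, ← finrank_top (ZMod 2) (Module.Dual (ZMod 2) K), ← hspan]
      have h2 := finrank_span_le_card (R := ZMod 2) 𝒞
      rwa [Set.toFinset_card] at h2
  have hcard' : Fintype.card (Fin (finrank (ZMod 2) K)) = Fintype.card 𝒞 := by
    rw [Fintype.card_fin, hcard, hr]
  obtain ⟨e⟩ : Nonempty (Fin (finrank (ZMod 2) K) ≃ 𝒞) := ⟨Fintype.equivOfCardEq hcard'⟩
  -- L κ is in the line
  have hline : ∀ κ : 𝒞, SS β t (LinearMap.ker (ks + (κ : Module.Dual (ZMod 2) K))) ≤
      Submodule.span (ZMod 2) {x κ} := by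
    intro κ y hy
    have h1 : y - (κ : Module.Dual (ZMod 2) K) y • x κ = 0 := by
      apply eq_zero_of_dual hspan
      intro κ' hκ'
      by_cases h : κ' = κ
      · rw [h, map_sub, map_smul, hx2, smul_eq_mul, mul_one, sub_self]
      · rw [map_sub, map_smul, hx3 κ ⟨κ', hκ'⟩ (fun h2 => h (congrArg Subtype.val h2)), smul_zero,
          sub_zero]
        exact LinearMap.mem_ker.1 (hclaim κ κ.2 κ' hκ' h hy)
    rw [sub_eq_zero] at h1
    rw [h1]
    exact Submodule.smul_mem _ _ (Submodule.mem_span_singleton_self _)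
  -- the inequality for one functional
  have hone : ∀ κ : 𝒞, finrank (ZMod 2) U ≤ ee β (Submodule.span (ZMod 2) {x κ}) +
      ee β (LinearMap.ker (κ : Module.Dual (ZMod 2) K)) + (c + 2 * (t * r) + 1) := by
    intro κ
    have h1 := hsum (ks + κ)
    have h2 : ks + (κ : Module.Dual (ZMod 2) K) + ks = κ := by
      have := dual_add_self ks
      calc ks + (κ : Module.Dual (ZMod 2) K) + ks = (ks + ks) + κ := by abel
        _ = κ := by rw [this, zero_add]
    rw [h2] at h1
    have h3 := Submodule.finrank_add_le_finrank_add_finrank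
      (UE β (LinearMap.ker (ks + (κ : Module.Dual (ZMod 2) K))))
      (UE β (LinearMap.ker (κ : Module.Dual (ZMod 2) K)))
    have h4 := hSSe (LinearMap.ker (ks + (κ : Module.Dual (ZMod 2) K)))
    have h5 := ee_mono β (hline κ)
    unfold ee at h5 ⊢
    omega
  have hinf : ⨅ κ : 𝒞, UE β (LinearMap.ker (κ : Module.Dual (ZMod 2) K)) = ⊥ := by
    rw [eq_bot_iff]
    intro u hu
    rw [Submodule.mem_iInf] at hu
    rw [Submodule.mem_bot]
    apply hL.inj
    intro y
    apply eq_zero_of_dual hspan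
    intro κ hκ
    exact LinearMap.mem_ker.1 (hu ⟨κ, hκ⟩ y)
  have hcod := codim_sum (fun κ : 𝒞 => UE β (LinearMap.ker (κ : Module.Dual (ZMod 2) K))) hinf
  have hall := Finset.sum_le_sum (fun κ (_ : κ ∈ (Finset.univ : Finset 𝒞)) => hone κ)
  rw [Finset.sum_const, Finset.card_univ, Finset.sum_add_distrib, Finset.sum_add_distrib,
    Finset.sum_const, Finset.card_univ, hcard, smul_eq_mul, smul_eq_mul] at hall
  rw [hcard] at hcod
  refine ⟨fun i => x (e i), hxi.comp e e.injective, ?_⟩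
  have hre : ∑ i, ee β (Submodule.span (ZMod 2) {x (e i)}) =
      ∑ κ : 𝒞, ee β (Submodule.span (ZMod 2) {x κ}) :=
    Equiv.sum_comp e (fun κ : 𝒞 => ee β (Submodule.span (ZMod 2) {x κ}))
  rw [hre, ← hr, hc]
  have hee : ∑ κ : 𝒞, ee β (LinearMap.ker (κ : Module.Dual (ZMod 2) K)) =
      ∑ κ : 𝒞, finrank (ZMod 2) (UE β (LinearMap.ker (κ : Module.Dual (ZMod 2) K))) := rfl
  rw [hee] at hall
  have e1 : r * (finrank (ZMod 2) U + c + 2 * t * r + 1) =
      r * finrank (ZMod 2) U + r * (c + 2 * (t * r) + 1) := by ring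
  rw [e1]
  omega

end Pool.Agent.Y154.QB2
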