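import Pool.Agent.Y920.QB.Lin

/-! Lemmas for the job QB-LINES. -/

set_option autoImplicit false

namespace Pool.Agent.Y154.QB2

open Module Pool.Agent.Y920.QB

section

variable {V K : Type} [AddCommGroup V] [Module (ZMod 2) V] [Finite V] [AddCommGroup K]
  [Module (ZMod 2) K] [Finite K] {U : Submodule (ZMod 2) V} (β : U →ₗ[ZMod 2] V →ₗ[ZMod 2] K)

theorem zmod2_cases (a : ZMod 2) : a = 0 ∨ a = 1 := by
  revert a; decide

theorem UE_mono {E E' : Submodule (ZMod 2) K} (h : E ≤ E') : UE β E ≤ UE β E' :=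
  fun _ hu x => h (hu x)

theorem ee_mono {E E' : Submodule (ZMod 2) K} (h : E ≤ E') : ee β E ≤ ee β E' :=
  Submodule.finrank_mono (UE_mono β h)

theorem UE_top : UE β ⊤ = ⊤ := by
  rw [eq_top_iff]
  intro u _ x
  trivial

theorem ee_top : ee β ⊤ = finrank (ZMod 2) U := by
  unfold ee
  rw [UE_top, finrank_top]

theorem UE_bot (hL : Lin β) : UE β ⊥ = ⊥ := by
  rw [eq_bot_iff]
  intro u hu
  rw [Submodule.mem_bot]
  exact hL.inj u (fun x => (Submodule.mem_bot _).1 (hu x))

theorem ee_bot (hL : Lin β) : ee β ⊥ = 0 := by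
  unfold ee
  rw [UE_bot β hL, finrank_bot]

theorem dual_add_self (κ : Module.Dual (ZMod 2) K) : κ + κ = 0 := by
  ext x
  rw [LinearMap.add_apply, LinearMap.zero_apply]
  generalize κ x = a
  revert a
  decide

theorem dual_eq_of_ker {κ κ' : Module.Dual (ZMod 2) K} (h0 : κ ≠ 0)
    (h : LinearMap.ker κ' ≤ LinearMap.ker κ) : κ' = κ := by
  obtain ⟨y, hy⟩ : ∃ y, κ y ≠ 0 := by
    by_contra hcon
    push Not at hcon
    exact h0 (LinearMap.ext hcon)
  have hy1 : κ y = 1 := (zmod2_cases _).resolve_left hy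
  have hy2 : κ' y = 1 := by
    rcases zmod2_cases (κ' y) with h1 | h1
    · exact absurd (h (LinearMap.mem_ker.2 h1)) (fun h2 => hy (LinearMap.mem_ker.1 h2))
    · exact h1
  ext x
  rcases zmod2_cases (κ' x) with h1 | h1
  · rw [h1, LinearMap.mem_ker.1 (h (LinearMap.mem_ker.2 h1))]
  · have h2 : κ' (x - y) = 0 := by rw [map_sub, h1, hy2, sub_self]
    have h3 := LinearMap.mem_ker.1 (h (LinearMap.mem_ker.2 h2))
    rw [map_sub, hy1, sub_eq_zero] at h3
    rw [h1, h3]

theorem sup_bound {A B A' B' : Submodule (ZMod 2) U} (hA : A' ≤ A) (hB : B' ≤ B) (s : ℕ)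
    (h1 : finrank (ZMod 2) A ≤ finrank (ZMod 2) A' + s)
    (h2 : finrank (ZMod 2) B ≤ finrank (ZMod 2) B' + s) :
    finrank (ZMod 2) ↥(A ⊔ B) ≤ finrank (ZMod 2) ↥(A' ⊔ B') + 2 * s := by
  have e1 := Submodule.finrank_sup_add_finrank_inf_eq A B
  have e2 := Submodule.finrank_sup_add_finrank_inf_eq A' B'
  have e3 : finrank (ZMod 2) ↥(A' ⊓ B') ≤ finrank (ZMod 2) ↥(A ⊓ B) :=
    Submodule.finrank_mono (inf_le_inf hA hB)
  omega

/-- a subspace is recovered from enough functionals -/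
theorem eq_zero_of_dual {S : Set (Module.Dual (ZMod 2) K)} (hS : Submodule.span (ZMod 2) S = ⊤)
    {y : K} (h : ∀ κ ∈ S, κ y = 0) : y = 0 := by
  rw [← Module.forall_dual_apply_eq_zero_iff (ZMod 2) y]
  intro κ
  have hκ : κ ∈ Submodule.span (ZMod 2) S := by rw [hS]; trivial
  induction hκ using Submodule.span_induction with
  | mem x hx => exact h x hx
  | zero => rfl
  | add x z _ _ hx hz => rw [LinearMap.add_apply, hx, hz, add_zero]
  | smul a x _ hx => rw [LinearMap.smul_apply, hx, smul_zero]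

/-- codimensions of a family of subspaces with trivial intersection -/
theorem codim_sum {ι : Type} [Fintype ι] (W : ι → Submodule (ZMod 2) U) (hW : ⨅ i, W i = ⊥) :
    ∑ i, finrank (ZMod 2) (W i) + finrank (ZMod 2) U ≤ Fintype.card ι * finrank (ZMod 2) U := by
  have h1 : Function.Injective (LinearMap.pi (fun i => (W i).mkQ)) := by
    rw [← LinearMap.ker_eq_bot, LinearMap.ker_pi]
    simp only [Submodule.ker_mkQ]
    exact hW
  have h2 := LinearMap.finrank_le_finrank_of_injective h1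
  rw [Module.finrank_pi_fintype] at h2
  have h3 : ∑ i, finrank (ZMod 2) (U ⧸ W i) + ∑ i, finrank (ZMod 2) (W i) =
      Fintype.card ι * finrank (ZMod 2) U := by
    rw [← Finset.sum_add_distrib, Finset.sum_congr rfl
      (fun i _ => Submodule.finrank_quotient_add_finrank (W i))]
    simp
  omega

end

end Pool.Agent.Y154.QB2
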